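import Mathlib
import Pool.Agent.Lib.SHirsch.PayTail

/-!
# Payment by free Gaussian coordinates (smoothed Hirsch, MP_4a5c02_co)

`pay_coord`: the coordinates `D` are confined to intervals of length `ε i` around any point of `E`,
given all other coordinates; `F` contains everything obtained from a point of `E` by resampling the
coordinates `D` within distance `R i` of their centres. Then
`μ E ≤ ∏_{i ∈ D} (2 ε i / √v i) μ F`. No shift, no density ratio.
-/

set_option autoImplicit false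

open MeasureTheory ProbabilityTheory
open scoped ENNReal NNReal

namespace Pool.Agent.Lib.S3.Hub

/-- The density of a Gaussian is at most `1 / √(2 π v)`. -/
theorem pdf_le (c : ℝ) (v : ℝ≥0) (x : ℝ) :
    gaussianPDFReal c v x ≤ (√(2 * Real.pi * v))⁻¹ := by
  unfold gaussianPDFReal
  have h1 : 0 ≤ (√(2 * Real.pi * v))⁻¹ := by positivity
  refine mul_le_of_le_one_right h1 (Real.exp_le_one_iff.2 ?_)
  rw [neg_div]
  exact neg_nonpos.2 (by positivity)

/-- A short interval has small Gaussian measure. -/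
theorem gauss_interval (c : ℝ) (v : ℝ≥0) (hv : v ≠ 0) (a b : ℝ) :
    gaussianReal c v (Set.Icc a b) ≤ ENNReal.ofReal ((b - a) * (√(2 * Real.pi * v))⁻¹) := by
  rcases le_or_gt a b with hab | hab
  · rw [gaussianReal_of_var_ne_zero _ hv, withDensity_apply _ measurableSet_Icc]
    calc ∫⁻ x in Set.Icc a b, gaussianPDF c v x
        ≤ ∫⁻ _ in Set.Icc a b, ENNReal.ofReal ((√(2 * Real.pi * v))⁻¹) := by
          refine lintegral_mono fun x => ?_
          exact ENNReal.ofReal_le_ofReal (pdf_le c v x)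
      _ = ENNReal.ofReal ((√(2 * Real.pi * v))⁻¹) * ENNReal.ofReal (b - a) := by
          rw [setLIntegral_const, Real.volume_Icc]
      _ = _ := by
          rw [← ENNReal.ofReal_mul (by positivity), mul_comm]
  · rw [Set.Icc_eq_empty (not_le.2 hab), measure_empty]
    exact bot_le

/-- An interval around the centre with at least half of the mass. -/
theorem gauss_half (c : ℝ) (v : ℝ≥0) (hv : v ≠ 0) (R : ℝ) (hR0 : 0 ≤ R) (hR : 4 * v ≤ R ^ 2) :
    ENNReal.ofReal (1 / 2) ≤ gaussianReal c v (Set.Icc (c - R) (c + R)) := by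
  have hv' : (0 : ℝ) < v := by
    have := pos_iff_ne_zero.mpr hv
    exact_mod_cast this
  have h1 := SHirsch.Pay.gauss_tail (v := v) c R hR0
  have h2 : gaussianReal c v (Set.Icc (c - R) (c + R))ᶜ ≤ ENNReal.ofReal (1 / 2) := by
    refine (measure_mono ?_).trans (h1.trans (ENNReal.ofReal_le_ofReal ?_))
    · intro x hx
      change R ≤ |x - c|
      by_contra hcon
      push Not at hcon
      rw [abs_lt] at hcon
      exact hx ⟨by linarith [hcon.1], by linarith [hcon.2]⟩
    · have h3 : -R ^ 2 / (2 * v) ≤ -2 := by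
        rw [div_le_iff₀ (by positivity)]
        linarith
      have h4 : Real.exp (-R ^ 2 / (2 * v)) ≤ Real.exp (-2) := Real.exp_le_exp.2 h3
      have h5 : Real.exp (-2) ≤ 1 / 4 := by
        rw [Real.exp_neg]
        have h6 : (4 : ℝ) ≤ Real.exp 2 := by
          have h7 : (2 : ℝ) ≤ Real.exp 1 := by
            have := Real.add_one_le_exp (1 : ℝ)
            linarith
          have h8 : Real.exp 2 = Real.exp 1 * Real.exp 1 := by
            rw [← Real.exp_add]
            norm_num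
          rw [h8]
          nlinarith
        rw [one_div]
        exact inv_anti₀ (by norm_num) h6
      linarith
  have h3 := prob_compl_eq_one_sub (μ := gaussianReal c v)
    (measurableSet_Icc (a := c - R) (b := c + R))
  have h4 : (1 : ℝ≥0∞) ≤ gaussianReal c v (Set.Icc (c - R) (c + R)) + ENNReal.ofReal (1 / 2) := by
    rw [h3] at h2
    exact tsub_le_iff_left.1 h2
  have h5 : (1 : ℝ≥0∞) = ENNReal.ofReal (1 / 2) + ENNReal.ofReal (1 / 2) := by
    rw [← ENNReal.ofReal_add (by norm_num) (by norm_num)]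
    norm_num
  rw [h5] at h4
  exact (ENNReal.add_le_add_iff_right ENNReal.ofReal_ne_top).1 h4

/-- The slice inequality. -/
theorem slice {κ : Type*} [Fintype κ] (c : κ → ℝ) (v : κ → ℝ≥0) (hv : ∀ i, v i ≠ 0)
    (ε R : κ → ℝ) (hε : ∀ i, 0 ≤ ε i) (hR0 : ∀ i, 0 ≤ R i) (hR : ∀ i, 4 * v i ≤ R i ^ 2)
    (A B : Set (κ → ℝ))
    (hA : ∀ x ∈ A, ∀ x' ∈ A, ∀ i, |x' i - x i| ≤ ε i)
    (hAB : ∀ x ∈ A, ∀ x', (∀ i, |x' i - c i| ≤ R i) → x' ∈ B) :
    Measure.pi (fun i => gaussianReal (c i) (v i)) A ≤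
      (∏ i, ENNReal.ofReal (2 * ε i / √(v i))) *
        Measure.pi (fun i => gaussianReal (c i) (v i)) B := by
  rcases A.eq_empty_or_nonempty with rfl | ⟨x0, hx0⟩
  · simp
  have h1 : A ⊆ Set.univ.pi fun i => Set.Icc (x0 i - ε i) (x0 i + ε i) := by
    intro x hx i _
    have := hA x0 hx0 x hx i
    rw [abs_le] at this
    exact ⟨by linarith [this.1], by linarith [this.2]⟩
  have h2 : (Set.univ.pi fun i => Set.Icc (c i - R i) (c i + R i)) ⊆ B := by
    intro x hx
    refine hAB x0 hx0 x fun i => ?_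
    have := hx i (Set.mem_univ i)
    rw [abs_le]
    exact ⟨by linarith [this.1], by linarith [this.2]⟩
  refine (measure_mono h1).trans (le_trans ?_ (mul_le_mul_right (measure_mono h2) _))
  rw [Measure.pi_pi, Measure.pi_pi, ← Finset.prod_mul_distrib]
  refine Finset.prod_le_prod' fun i _ => ?_
  refine (gauss_interval (c i) (v i) (hv i) _ _).trans ?_
  refine le_trans ?_ (mul_le_mul_right (gauss_half (c i) (v i) (hv i) (R i) (hR0 i) (hR i)) _)
  have hv' : (0 : ℝ) < v i := by
    have := pos_iff_ne_zero.mpr (hv i)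
    exact_mod_cast this
  rw [← ENNReal.ofReal_mul (by have := hε i; positivity)]
  refine ENNReal.ofReal_le_ofReal ?_
  have h3 : √(v i) ≤ √(2 * Real.pi * v i) / 2 := by
    rw [le_div_iff₀ (by norm_num)]
    have h4 : √(v i) * 2 = √(4 * v i) := by
      rw [Real.sqrt_mul (by norm_num)]
      have : √(4 : ℝ) = 2 := by
        rw [show (4 : ℝ) = 2 ^ 2 by norm_num]
        exact Real.sqrt_sq (by norm_num)
      rw [this]
      ring
    rw [h4]
    refine Real.sqrt_le_sqrt ?_
    have := Real.pi_gt_three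
    nlinarith
  have h5 : 0 < √((v i : ℝ)) := Real.sqrt_pos.2 hv'
  have h6 : (√(2 * Real.pi * v i))⁻¹ ≤ (2 * √((v i : ℝ)))⁻¹ := by
    refine inv_anti₀ (by positivity) ?_
    linarith
  have h7 := mul_le_mul_of_nonneg_left h6 (show 0 ≤ 2 * ε i by have := hε i; positivity)
  calc (x0 i + ε i - (x0 i - ε i)) * (√(2 * Real.pi * v i))⁻¹
      = 2 * ε i * (√(2 * Real.pi * v i))⁻¹ := by ring
    _ ≤ 2 * ε i * (2 * √((v i : ℝ)))⁻¹ := h7
    _ = 2 * ε i / √(v i) * (1 / 2) := by
        rw [mul_inv]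
        ring

/-- **Payment by free coordinates.** -/
theorem pay_coord {ι : Type*} [Fintype ι] [DecidableEq ι] (c : ι → ℝ) (v : ι → ℝ≥0)
    (D : Finset ι) (hv : ∀ i ∈ D, v i ≠ 0) (ε R : ι → ℝ) (hε : ∀ i ∈ D, 0 ≤ ε i)
    (hR0 : ∀ i ∈ D, 0 ≤ R i) (hR : ∀ i ∈ D, 4 * (v i : ℝ) ≤ R i ^ 2)
    (E F : Set (ι → ℝ)) (hE : MeasurableSet E) (hF : MeasurableSet F)
    (hEF : ∀ ω ∈ E, ∀ ω' : ι → ℝ, (∀ i, i ∉ D → ω' i = ω i) →
      (∀ i ∈ D, |ω' i - c i| ≤ R i) → ω' ∈ F)
    (hconf : ∀ ω ∈ E, ∀ ω' ∈ E, (∀ i, i ∉ D → ω' i = ω i) → ∀ i ∈ D, |ω' i - ω i| ≤ ε i) :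
    Measure.pi (fun i => gaussianReal (c i) (v i)) E ≤
      (∏ i ∈ D, ENNReal.ofReal (2 * ε i / √(v i))) *
        Measure.pi (fun i => gaussianReal (c i) (v i)) F := by
  classical
  obtain ⟨M, hM⟩ : ∃ M : ι → Prop, ∀ i, M i ↔ i ∈ D := ⟨fun i => i ∈ D, fun _ => Iff.rfl⟩
  have he := measurePreserving_piEquivPiSubtypeProd (fun i => gaussianReal (c i) (v i)) M
  set e := MeasurableEquiv.piEquivPiSubtypeProd (fun _ : ι => ℝ) M with he_def
  have hE' : MeasurableSet (e.symm ⁻¹' E) := e.symm.measurable hE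
  have hF' : MeasurableSet (e.symm ⁻¹' F) := e.symm.measurable hF
  have hpre : ∀ X : Set (ι → ℝ), MeasurableSet X →
      Measure.pi (fun i => gaussianReal (c i) (v i)) X =
        ((Measure.pi fun i : {i // M i} => gaussianReal (c i) (v i)).prod
          (Measure.pi fun i : {i // ¬ M i} => gaussianReal (c i) (v i))) (e.symm ⁻¹' X) := by
    intro X hX
    have := (he.symm e).measure_preimage hX.nullMeasurableSet
    exact this.symm
  rw [hpre E hE, hpre F hF, Measure.prod_apply_symm hE', Measure.prod_apply_symm hF',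
    ← lintegral_const_mul _ (measurable_measure_prodMk_right hF')]
  refine lintegral_mono fun y => ?_
  have hglue : ∀ (x : {i : ι // M i} → ℝ) (i : ι),
      e.symm (x, y) i = if h : M i then x ⟨i, h⟩ else y ⟨i, h⟩ := by
    intro x i
    by_cases hi : M i
    · simp [he_def, MeasurableEquiv.piEquivPiSubtypeProd, Equiv.piEquivPiSubtypeProd, hi]
    · simp [he_def, MeasurableEquiv.piEquivPiSubtypeProd, Equiv.piEquivPiSubtypeProd, hi]
  have hin : ∀ (x : {i : ι // M i} → ℝ) (i : {i : ι // M i}), e.symm (x, y) i = x i := by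
    intro x i
    rw [hglue, dif_pos i.2]
  have hout : ∀ (x x' : {i : ι // M i} → ℝ) (i : ι), i ∉ D →
      e.symm (x', y) i = e.symm (x, y) i := by
    intro x x' i hi
    have hi' : ¬ M i := fun h => hi ((hM i).1 h)
    rw [hglue, hglue, dif_neg hi', dif_neg hi']
  have hprod : ∏ i ∈ D, ENNReal.ofReal (2 * ε i / √(v i)) =
      ∏ i : {i : ι // M i}, ENNReal.ofReal (2 * ε i / √(v i)) :=
    Finset.prod_subtype D (fun i => (hM i).symm) fun i => ENNReal.ofReal (2 * ε i / √(v i))
  have hmem : ∀ i : {i : ι // M i}, i.1 ∈ D := fun i => (hM i).1 i.2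
  rw [hprod]
  refine slice (fun i : {i : ι // M i} => c i) (fun i => v i) (fun i => hv i (hmem i))
    (fun i => ε i) (fun i => R i) (fun i => hε i (hmem i)) (fun i => hR0 i (hmem i))
    (fun i => hR i (hmem i)) _ _ ?_ ?_
  · intro x hx x' hx' i
    have := hconf (e.symm (x, y)) hx (e.symm (x', y)) hx' (hout x x') i (hmem i)
    rwa [hin, hin] at this
  · intro x hx x' hx'
    refine hEF (e.symm (x, y)) hx (e.symm (x', y)) (hout x x') fun i hi => ?_
    have := hx' ⟨i, (hM i).2 hi⟩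
    rwa [← hin x' ⟨i, (hM i).2 hi⟩] at this

end Pool.Agent.Lib.S3.Hub
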