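import Mathlib
import Pool.Agent.Lib.S3.CertMeas
import Pool.Agent.Lib.S3.Hub.PayCoord

/-!
# Small multipliers paid by free coins of the objective (smoothed Hirsch, MP_4a5c02_co)

`pay_light`: the objective `Γ` contains the free Gaussian coins `ω (gi o)`, `o ∈ D`, with the
coefficient `φ`; the rows and `N` do not depend on them. The event that the rows `D` are tight at
the minimiser of `Γ` on the face `T` with multipliers at most `τ` costs `∏ (2 (τ / φ) / √v)`,
relative to any set `F'` which contains everything obtained by resampling these coins.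

`hub_light`, `few_light`: the hub functional `g = ∑ g_r ρ_r - Θ ρ_∞` has at most `k - 1` multipliers
below `τ` at its minimiser.
-/

set_option autoImplicit false

open Matrix MeasureTheory ProbabilityTheory
open scoped ENNReal NNReal

namespace Pool.Agent.Lib.S3.Hub

open Cert (Crt Light XJ AJ)

/-- **Payment for small multipliers by free coins.** -/
theorem pay_light {κ ι : Type*} [Fintype κ] [DecidableEq κ] [Finite ι] {n : ℕ}
    (c : κ → ℝ) (v : κ → ℝ≥0) (T : Set ι) (D : Finset ι) (τ φ : ℝ) (hτ : 0 ≤ τ) (hφ : 0 < φ)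
    (gi : ι → κ) (hgi : Set.InjOn gi D) (hv : ∀ o ∈ D, v (gi o) ≠ 0)
    (ρ : (κ → ℝ) → ι → Fin (n + 1) → ℝ) (N Γ : (κ → ℝ) → Fin (n + 1) → ℝ)
    (hρm : ∀ o k, Measurable fun ω => ρ ω o k) (hNm : ∀ k, Measurable fun ω => N ω k)
    (hΓm : ∀ k, Measurable fun ω => Γ ω k)
    (hρ : ∀ ω ω' : κ → ℝ, (∀ i, i ∉ D.image gi → ω' i = ω i) → ρ ω' = ρ ω)
    (hN : ∀ ω ω' : κ → ℝ, (∀ i, i ∉ D.image gi → ω' i = ω i) → N ω' = N ω)
    (hΓ : ∀ ω ω' : κ → ℝ, (∀ i, i ∉ D.image gi → ω' i = ω i) →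
      Γ ω' = Γ ω + ∑ o ∈ D, (φ * (ω' (gi o) - ω (gi o))) • ρ ω o)
    (R : κ → ℝ) (hR0 : ∀ o ∈ D, 0 ≤ R (gi o)) (hR : ∀ o ∈ D, 4 * (v (gi o) : ℝ) ≤ R (gi o) ^ 2)
    (F F' : Set (κ → ℝ)) (hF : MeasurableSet F) (hF' : MeasurableSet F')
    (hFF' : ∀ ω ∈ F, ∀ ω' : κ → ℝ, (∀ i, i ∉ D.image gi → ω' i = ω i) →
      (∀ o ∈ D, |ω' (gi o) - c (gi o)| ≤ R (gi o)) → ω' ∈ F') :
    Measure.pi (fun i => gaussianReal (c i) (v i))
        ({ω | ∃ J : Fin n → ι, Light (ρ ω) (N ω) (Γ ω) T D τ J} ∩ F) ≤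
      (∏ o ∈ D, ENNReal.ofReal (2 * (τ / φ) / √(v (gi o)))) *
        Measure.pi (fun i => gaussianReal (c i) (v i)) F' := by
  have h := pay_coord c v (D.image gi) (by
      intro i hi
      obtain ⟨o, ho, rfl⟩ := Finset.mem_image.1 hi
      exact hv o ho) (fun _ => τ / φ) R (fun _ _ => by positivity) (by
      intro i hi
      obtain ⟨o, ho, rfl⟩ := Finset.mem_image.1 hi
      exact hR0 o ho) (by
      intro i hi
      obtain ⟨o, ho, rfl⟩ := Finset.mem_image.1 hi
      exact hR o ho)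
    ({ω | ∃ J : Fin n → ι, Light (ρ ω) (N ω) (Γ ω) T D τ J} ∩ F) F'
    ((Cert.measurableSet_light hρm hNm hΓm T D τ).inter hF) hF' ?_ ?_
  · rwa [Finset.prod_image fun o ho o' ho' h => hgi ho ho' h] at h
  · intro ω hω ω' hω' hR'
    refine hFF' ω hω.2 ω' hω' fun o ho => ?_
    exact hR' (gi o) (Finset.mem_image_of_mem gi ho)
  · intro ω hω ω' hω'2 hω' i hi
    obtain ⟨o, ho, rfl⟩ := Finset.mem_image.1 hi
    obtain ⟨J, hJ, hJD⟩ := hω.1
    obtain ⟨J', hJ', hJD'⟩ := hω'2.1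
    rw [hρ ω ω' hω', hN ω ω' hω'] at hJ' hJD'
    obtain ⟨-, hs⟩ := Cert.same_point_shift (D := D)
      (s := fun o => φ * (ω' (gi o) - ω (gi o))) hJ hJ' (hΓ ω ω' hω')
      (fun o ho => by
        obtain ⟨-, k, hk, -⟩ := hJD o ho
        exact ⟨k, hk⟩)
      (fun o ho => by
        obtain ⟨-, k, hk, -⟩ := hJD' o ho
        exact ⟨k, hk⟩)
    obtain ⟨hoT, k, hk, hlk⟩ := hJD o ho
    obtain ⟨-, k', hk', hlk'⟩ := hJD' o ho
    have h1 := hs k k' (by rw [hk]; exact ho) (by rw [hk', hk])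
    have h2 := hJ.lam k (by rw [hk]; exact hoT)
    have h3 := hJ'.lam k' (by rw [hk']; exact hoT)
    simp only [hk] at h1
    have h4 : |φ * (ω' (gi o) - ω (gi o))| ≤ τ := by
      rw [abs_le]
      constructor
      · linarith
      · linarith
    rw [abs_mul, abs_of_pos hφ] at h4
    rw [le_div_iff₀ hφ, mul_comm]
    exact h4

/-- The hub functional `∑ g_r ρ_r - Θ ρ_∞`. -/
noncomputable def hubG {m n : ℕ} (Θ : ℝ) (ρ : Option (Fin m) → Fin (n + 1) → ℝ)
    (g : Fin m → ℝ) : Fin (n + 1) → ℝ :=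
  ∑ r, g r • ρ (some r) - Θ • ρ none

/-- The hub event: `k` rows are tight at the minimiser of the hub functional with multipliers at
most `τ`. -/
def HubBad {m n : ℕ} (Θ τ : ℝ) (k : ℕ) (ρ : Option (Fin m) → Fin (n + 1) → ℝ)
    (N : Fin (n + 1) → ℝ) (g : Fin m → ℝ) : Prop :=
  ∃ D : Finset (Fin m), D.card = k ∧ ∃ J : Fin n → Option (Fin m),
    Light ρ N (hubG Θ ρ g) ∅ (D.map ⟨some, Option.some_injective _⟩) τ J

/-- Outside the hub event fewer than `k` multipliers are at most `τ`. -/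
theorem few_light {m n k : ℕ} {Θ τ : ℝ} {ρ : Option (Fin m) → Fin (n + 1) → ℝ}
    {N : Fin (n + 1) → ℝ} {g : Fin m → ℝ} (h : ¬ HubBad Θ τ k ρ N g)
    {J : Fin n → Option (Fin m)} (hJ : Crt ρ N (hubG Θ ρ g) ∅ J) (hJn : none ∉ Set.range J) :
    (Finset.univ.filter fun i => Cert.lam ρ N (hubG Θ ρ g) J i ≤ τ).card < k := by
  classical
  by_contra hcon
  push Not at hcon
  obtain ⟨A, hA, hAk⟩ := Finset.exists_subset_card_eq hcon
  have hJi := Cert.inj_of_det hJ.det
  have hsome : ∀ i, ∃ r, J i = some r := fun i =>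
    Option.ne_none_iff_exists'.1 fun h => hJn ⟨i, h⟩
  choose r hr using hsome
  have hri : Function.Injective r := fun i j hij => hJi (by rw [hr i, hr j, hij])
  refine h ⟨A.map ⟨r, hri⟩, by rw [Finset.card_map, hAk], J, hJ, fun o ho => ?_⟩
  obtain ⟨x, hx, rfl⟩ := Finset.mem_map.1 ho
  obtain ⟨i, hi, rfl⟩ := Finset.mem_map.1 hx
  exact ⟨Set.notMem_empty _, i, hr i, (Finset.mem_filter.1 (hA hi)).2⟩

/-- **The hub event is rare**, relative to any set `F'` of rows. -/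
theorem hub_light {κ : Type*} [Fintype κ] [DecidableEq κ] {m n : ℕ}
    (c : κ → ℝ) (v : κ → ℝ≥0) (Θ τ : ℝ) (hτ : 0 ≤ τ) (k : ℕ)
    (gi : Fin m → κ) (hgi : Function.Injective gi) (v0 : ℝ≥0) (hv0 : v0 ≠ 0)
    (hv : ∀ r, v (gi r) = v0)
    (ρ : (κ → ℝ) → Option (Fin m) → Fin (n + 1) → ℝ) (N : (κ → ℝ) → Fin (n + 1) → ℝ)
    (hρm : ∀ o k, Measurable fun ω => ρ ω o k) (hNm : ∀ k, Measurable fun ω => N ω k)
    (hρ : ∀ ω ω' : κ → ℝ, (∀ i, i ∉ Set.range gi → ω' i = ω i) → ρ ω' = ρ ω)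
    (hN : ∀ ω ω' : κ → ℝ, (∀ i, i ∉ Set.range gi → ω' i = ω i) → N ω' = N ω)
    (R : ℝ) (hR0 : 0 ≤ R) (hR : 4 * (v0 : ℝ) ≤ R ^ 2)
    (F F' : Set (κ → ℝ)) (hF : MeasurableSet F) (hF' : MeasurableSet F')
    (hFF' : ∀ ω ∈ F, ∀ ω' : κ → ℝ, (∀ i, i ∉ Set.range gi → ω' i = ω i) →
      (∀ r, ω' (gi r) = ω (gi r) ∨ |ω' (gi r) - c (gi r)| ≤ R) → ω' ∈ F') :
    Measure.pi (fun i => gaussianReal (c i) (v i))
        ({ω | HubBad Θ τ k (ρ ω) (N ω) (fun r => ω (gi r))} ∩ F) ≤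
      ENNReal.ofReal (2 * m * τ / √v0) ^ k *
        Measure.pi (fun i => gaussianReal (c i) (v i)) F' := by
  classical
  set μ := Measure.pi (fun i => gaussianReal (c i) (v i)) with hμ
  set e : Fin m ↪ Option (Fin m) := ⟨some, Option.some_injective _⟩ with he
  set Γ : (κ → ℝ) → Fin (n + 1) → ℝ := fun ω => hubG Θ (ρ ω) (fun r => ω (gi r)) with hΓdef
  have hΓm : ∀ k, Measurable fun ω => Γ ω k := by
    intro k
    simp only [hΓdef, hubG, Pi.sub_apply, Finset.sum_apply, Pi.smul_apply, smul_eq_mul]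
    refine Measurable.sub (Finset.measurable_sum _ fun r _ => ?_) ((hρm none k).const_mul Θ)
    exact (measurable_pi_apply (gi r)).mul (hρm (some r) k)
  -- one set `D`
  have hone : ∀ D : Finset (Fin m), D.card = k →
      μ ({ω | ∃ J : Fin n → Option (Fin m), Light (ρ ω) (N ω) (Γ ω) ∅ (D.map e) τ J} ∩ F) ≤
        ENNReal.ofReal (2 * τ / √v0) ^ k * μ F' := by
    intro D hD
    rcases D.eq_empty_or_nonempty with rfl | ⟨r0, hr0⟩
    · rw [← hD, Finset.card_empty, pow_zero, one_mul]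
      refine measure_mono fun ω hω => ?_
      exact hFF' ω hω.2 ω (fun _ _ => rfl) fun r => Or.inl rfl
    · -- extend `gi` to `Option (Fin m)`
      have hrange : ∀ ω ω' : κ → ℝ,
          (∀ i, i ∉ (D.map e).image (fun o => gi (o.getD r0)) → ω' i = ω i) →
          (∀ i, i ∉ Set.range gi → ω' i = ω i) ∧ ∀ r, r ∉ D → ω' (gi r) = ω (gi r) := by
        intro ω ω' h
        refine ⟨fun i hi => h i fun hi' => ?_, fun r hr => h _ fun hi' => ?_⟩
        · obtain ⟨o, ho, rfl⟩ := Finset.mem_image.1 hi'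
          exact hi ⟨_, rfl⟩
        · obtain ⟨o, ho, ho'⟩ := Finset.mem_image.1 hi'
          obtain ⟨s, hs, rfl⟩ := Finset.mem_map.1 ho
          have : s = r := hgi ho'
          exact hr (this ▸ hs)
      have h := pay_light (n := n) c v (∅ : Set (Option (Fin m))) (D.map e) τ 1 hτ one_pos
        (fun o => gi (o.getD r0)) (by
          intro o ho o' ho' hoo
          obtain ⟨s, -, rfl⟩ := Finset.mem_map.1 (Finset.mem_coe.1 ho)
          obtain ⟨s', -, rfl⟩ := Finset.mem_map.1 (Finset.mem_coe.1 ho')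
          have : s = s' := hgi hoo
          rw [this]) (by
          intro o _
          rw [hv]
          exact hv0) ρ N Γ hρm hNm hΓm
        (fun ω ω' h => hρ ω ω' (hrange ω ω' h).1)
        (fun ω ω' h => hN ω ω' (hrange ω ω' h).1) (by
          intro ω ω' h
          obtain ⟨h1, h2⟩ := hrange ω ω' h
          have h3 : ∑ o ∈ D.map e, (1 * (ω' (gi (o.getD r0)) - ω (gi (o.getD r0)))) • ρ ω o =
              ∑ r, (ω' (gi r) - ω (gi r)) • ρ ω (some r) := by
            rw [Finset.sum_map, ← Finset.sum_subset (Finset.subset_univ D)]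
            · refine Finset.sum_congr rfl fun r _ => ?_
              simp [he]
            · intro r _ hr
              rw [h2 r hr, sub_self, zero_smul]
          rw [h3]
          simp only [hΓdef, hubG]
          rw [hρ ω ω' h1]
          simp only [sub_smul, Finset.sum_sub_distrib]
          abel) (fun _ => R) (fun _ _ => hR0) (by
          intro o _
          rw [hv]
          exact hR) F F' hF hF' (by
          intro ω hω ω' h hc
          obtain ⟨h1, h2⟩ := hrange ω ω' h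
          refine hFF' ω hω ω' h1 fun r => ?_
          by_cases hr : r ∈ D
          · exact Or.inr (hc (some r) (Finset.mem_map.2 ⟨r, hr, rfl⟩))
          · exact Or.inl (h2 r hr))
      refine h.trans (le_of_eq ?_)
      congr 1
      rw [Finset.prod_congr rfl fun o _ => by rw [hv], Finset.prod_const, Finset.card_map, hD,
        div_one]
  -- all sets
  have hsub : {ω | HubBad Θ τ k (ρ ω) (N ω) (fun r => ω (gi r))} ∩ F ⊆
      ⋃ D ∈ (Finset.univ : Finset (Fin m)).powersetCard k,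
        ({ω | ∃ J : Fin n → Option (Fin m), Light (ρ ω) (N ω) (Γ ω) ∅ (D.map e) τ J} ∩ F) := by
    rintro ω ⟨⟨D, hD, hJ⟩, hωF⟩
    refine Set.mem_biUnion (x := D) ?_ ⟨hJ, hωF⟩
    exact Finset.mem_coe.2 (Finset.mem_powersetCard.2 ⟨Finset.subset_univ D, hD⟩)
  calc μ ({ω | HubBad Θ τ k (ρ ω) (N ω) (fun r => ω (gi r))} ∩ F)
      ≤ ∑ D ∈ (Finset.univ : Finset (Fin m)).powersetCard k,
          μ ({ω | ∃ J : Fin n → Option (Fin m), Light (ρ ω) (N ω) (Γ ω) ∅ (D.map e) τ J} ∩ F) :=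
        (measure_mono hsub).trans (measure_biUnion_finset_le _ _)
    _ ≤ ∑ D ∈ (Finset.univ : Finset (Fin m)).powersetCard k,
          ENNReal.ofReal (2 * τ / √v0) ^ k * μ F' :=
        Finset.sum_le_sum fun D hD => hone D (Finset.mem_powersetCard.1 hD).2
    _ = (m.choose k : ℝ≥0∞) * (ENNReal.ofReal (2 * τ / √v0) ^ k * μ F') := by
        rw [Finset.sum_const, Finset.card_powersetCard, Finset.card_univ, Fintype.card_fin,
          nsmul_eq_mul]
    _ ≤ (m : ℝ≥0∞) ^ k * (ENNReal.ofReal (2 * τ / √v0) ^ k * μ F') := by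
        gcongr
        exact_mod_cast Nat.choose_le_pow m k
    _ = ENNReal.ofReal (2 * m * τ / √v0) ^ k * μ F' := by
        rw [← mul_assoc, ← mul_pow]
        congr 2
        rw [← ENNReal.ofReal_natCast, ← ENNReal.ofReal_mul (Nat.cast_nonneg m)]
        congr 1
        ring

end Pool.Agent.Lib.S3.Hub
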